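import Pool.Agent.H93.ES.Targets

/-!
# The inequality of Donsker and Varadhan (row DVF)
-/

set_option autoImplicit false

namespace Pool.Agent.H4.ES

open Finset Pool.Agent.H18.MR Pool.Agent.H93.DE Pool.Agent.H6.N4D Pool.Agent.H93 Pool.Agent.H93.ES

theorem pf_DVF : T_DVF := by
  intro Ω α β _ _ _ _ μ X Y f
  set T : Ω → α × β := fun ω => (X ω, Y ω) with hT
  set p : α × β → ℝ := law μ T with hp
  set px : α → ℝ := law μ X with hpx
  set py : β → ℝ := law μ Y with hpy
  have e1 : ∀ t, p t ≤ px t.1 := fun t => law_le_comp μ T Prod.fst t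
  have e2 : ∀ t, p t ≤ py t.2 := fun t => law_le_comp μ T Prod.snd t
  have p0 : ∀ t, 0 ≤ p t := law_nonneg μ T
  have px0 : ∀ t, 0 ≤ px t := law_nonneg μ X
  have py0 : ∀ t, 0 ≤ py t := law_nonneg μ Y
  obtain ⟨Z, hZ⟩ : ∃ Z : α → ℝ, ∀ a, Z a = ∑ b, py b * Real.exp (f a b) := ⟨_, fun _ => rfl⟩
  have Zpos : ∀ a, 0 < Z a := by
    intro a
    have h0 : 0 ≤ Z a := by
      rw [hZ]
      exact Finset.sum_nonneg fun b _ => mul_nonneg (py0 b) (Real.exp_pos _).le
    rcases h0.eq_or_lt with h | h
    · exfalso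
      rw [hZ] at h
      have hz := (Finset.sum_eq_zero_iff_of_nonneg
        (fun b _ => mul_nonneg (py0 b) (Real.exp_pos _).le)).1 h.symm
      have h1 : ∑ b, py b = 0 := Finset.sum_eq_zero fun b hb => by
        rcases mul_eq_zero.1 (hz b hb) with h1 | h1
        · exact h1
        · exact absurd h1 (Real.exp_pos _).ne'
      rw [hpy, law_sum] at h1
      exact one_ne_zero h1
    · exact h
  have g := gibbs Finset.univ p (fun t => px t.1 * py t.2 * Real.exp (f t.1 t.2) / Z t.1) p0
    (fun t => by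
      have := Zpos t.1
      have := px0 t.1
      have := py0 t.2
      positivity)
    (fun t ht => by
      by_contra hne
      have hpos : 0 < p t := lt_of_le_of_ne (p0 t) (Ne.symm hne)
      have h1 : 0 < px t.1 := hpos.trans_le (e1 t)
      have h2 : 0 < py t.2 := hpos.trans_le (e2 t)
      have h3 := Zpos t.1
      have : 0 < px t.1 * py t.2 * Real.exp (f t.1 t.2) / Z t.1 := by positivity
      linarith)
  have hps : ∑ t, p t = 1 := law_sum μ T
  have hss : ∑ t : α × β, px t.1 * py t.2 * Real.exp (f t.1 t.2) / Z t.1 = 1 := by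
    rw [Fintype.sum_prod_type]
    have : ∀ a, ∑ b, px a * py b * Real.exp (f a b) / Z a = px a := by
      intro a
      rw [← Finset.sum_div, div_eq_iff (Zpos a).ne', hZ, Finset.mul_sum]
      exact Finset.sum_congr rfl fun b _ => mul_assoc _ _ _
    simp only [this]
    exact law_sum μ X
  have hlog : ∀ t, p t * Real.log (px t.1 * py t.2 * Real.exp (f t.1 t.2) / Z t.1) =
      p t * Real.log (px t.1) + p t * Real.log (py t.2) + p t * f t.1 t.2 -
        p t * Real.log (Z t.1) := by
    intro t
    rcases eq_or_lt_of_le (p0 t) with h0 | h0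
    · rw [← h0]; ring
    · have h1 : 0 < px t.1 := h0.trans_le (e1 t)
      have h2 : 0 < py t.2 := h0.trans_le (e2 t)
      have h3 := Zpos t.1
      rw [Real.log_div (by positivity) h3.ne', Real.log_mul (by positivity) (Real.exp_pos _).ne',
        Real.log_mul h1.ne' h2.ne', Real.log_exp]
      ring
  rw [Finset.sum_congr rfl (fun t _ => hlog t), Finset.sum_sub_distrib, Finset.sum_add_distrib,
    Finset.sum_add_distrib, hps, hss] at g
  have s1 := sum_law_comp μ T Prod.fst (fun u => Real.log (px u))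
  have s2 := sum_law_comp μ T Prod.snd (fun u => Real.log (py u))
  have s3 := sum_law_comp μ T Prod.fst (fun u => Real.log (Z u))
  have u1 : mi μ X Y = (-∑ a, px a * Real.log (px a)) + (-∑ b, py b * Real.log (py b)) -
    (-∑ t, p t * Real.log (p t)) := rfl
  have s1' : ∑ t, p t * Real.log (px t.1) = ∑ a, px a * Real.log (px a) := s1
  have s2' : ∑ t, p t * Real.log (py t.2) = ∑ b, py b * Real.log (py b) := s2
  have s3' : ∑ t, p t * Real.log (Z t.1) = ∑ a, px a * Real.log (Z a) := s3
  have s4 : ∑ a, ∑ b, p (a, b) * f a b = ∑ t, p t * f t.1 t.2 :=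
    (Fintype.sum_prod_type (fun t : α × β => p t * f t.1 t.2)).symm
  simp only [← hZ]
  rw [u1, s4]
  rw [s1', s2', s3'] at g
  linarith

end Pool.Agent.H4.ES
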