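import Pool.Agent.H93.ES.Targets

/-!
# A net of the signs of sums of exponentials (row WN1)
-/

set_option autoImplicit false

namespace Pool.Agent.H4.ES

open Finset Pool.Agent.H18.MR Pool.Agent.H93.DE Pool.Agent.H6.N4D Pool.Agent.H93 Pool.Agent.H93.ES

/-- a rounded coefficient -/
noncomputable def rco {K : ℕ} (i j : Fin (2 * K + 1)) : ℂ :=
  (((i : ℕ) : ℝ) / K - 1 : ℝ) + ((((j : ℕ) : ℝ) / K - 1 : ℝ) : ℂ) * Complex.I

/-- a rounded model -/
noncomputable def mdl {R K H : ℕ} (z : Fin R → Fin (2 * K + 1) × Fin (2 * K + 1) × Fin H)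
    (t : ℕ) : ℂ :=
  ∑ r : Fin R, rco (z r).1 (z r).2.1 * ee ((((z r).2.2 : ℕ) : ℝ) / H * t)

open Classical in
/-- the signs of a rounded model -/
noncomputable def sgm {R K H : ℕ} (L : ℕ)
    (z : Fin R → Fin (2 * K + 1) × Fin (2 * K + 1) × Fin H) (t : Fin L) : Bool :=
  decide (0 ≤ (mdl z t).re)

theorem rnd (K : ℕ) (hK : 1 ≤ K) (a : ℝ) (h : |a| ≤ 1) :
    ∃ i : Fin (2 * K + 1), |a - (((i : ℕ) : ℝ) / K - 1)| ≤ 1 / K := by
  have hK' : (0 : ℝ) < K := by exact_mod_cast hK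
  obtain ⟨h1, h2⟩ := abs_le.1 h
  have h0 : 0 ≤ (K : ℝ) * (a + 1) := mul_nonneg hK'.le (by linarith)
  have hfl := Nat.floor_le h0
  have hfu := Nat.lt_floor_add_one ((K : ℝ) * (a + 1))
  have hlt : ⌊(K : ℝ) * (a + 1)⌋₊ < 2 * K + 1 := by
    rw [Nat.lt_succ_iff]
    apply Nat.floor_le_of_le
    push_cast
    nlinarith
  refine ⟨⟨_, hlt⟩, ?_⟩
  show |a - ((⌊(K : ℝ) * (a + 1)⌋₊ : ℝ) / K - 1)| ≤ 1 / K
  have e : a - ((⌊(K : ℝ) * (a + 1)⌋₊ : ℝ) / K - 1) =
      (K * (a + 1) - (⌊(K : ℝ) * (a + 1)⌋₊ : ℝ)) / K := by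
    field_simp
    ring
  rw [e, abs_div, abs_of_pos hK']
  gcongr
  rw [abs_le]
  constructor <;> linarith

theorem rnd2 (H : ℕ) (hH : 1 ≤ H) (β : ℝ) : ∃ z : Fin H, ∀ t : ℕ,
    ‖ee (β * t) - ee (((z : ℕ) : ℝ) / H * t)‖ ≤ 2 * Real.pi * (t / H) := by
  have hH' : (0 : ℝ) < H := by exact_mod_cast hH
  have h0 : 0 ≤ (H : ℝ) * Int.fract β := mul_nonneg hH'.le (Int.fract_nonneg _)
  have hfl := Nat.floor_le h0
  have hfu := Nat.lt_floor_add_one ((H : ℝ) * Int.fract β)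
  have hlt : ⌊(H : ℝ) * Int.fract β⌋₊ < H := by
    rw [Nat.floor_lt h0]
    have := Int.fract_lt_one β
    nlinarith
  refine ⟨⟨_, hlt⟩, fun t => ?_⟩
  show ‖ee (β * t) - ee ((⌊(H : ℝ) * Int.fract β⌋₊ : ℝ) / H * t)‖ ≤ _
  refine (norm_ee_sub_le _ _).trans ?_
  have hpi := Real.pi_pos
  gcongr
  have h1 := nd_le (β * t - (⌊(H : ℝ) * Int.fract β⌋₊ : ℝ) / H * t) (⌊β⌋ * t)
  refine h1.trans ?_
  have e : β * t - (⌊(H : ℝ) * Int.fract β⌋₊ : ℝ) / H * t - ((⌊β⌋ * t : ℤ) : ℝ) =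
      (H * Int.fract β - (⌊(H : ℝ) * Int.fract β⌋₊ : ℝ)) * (t / H) := by
    push_cast
    have : Int.fract β = β - ⌊β⌋ := rfl
    generalize (⌊(H : ℝ) * Int.fract β⌋₊ : ℝ) = y
    rw [this]
    field_simp
    ring
  rw [e, abs_mul, abs_of_nonneg (by positivity : (0 : ℝ) ≤ (t : ℝ) / H)]
  have h2 : |H * Int.fract β - (⌊(H : ℝ) * Int.fract β⌋₊ : ℝ)| ≤ 1 := by
    rw [abs_le]
    constructor <;> linarith
  have h3 : (0 : ℝ) ≤ (t : ℝ) / H := by positivity
  nlinarith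

theorem rnd1 (K : ℕ) (hK : 1 ≤ K) (b : ℂ) (h : ‖b‖ ≤ 1) :
    ∃ i j : Fin (2 * K + 1), ‖b - rco i j‖ ≤ 2 / K := by
  obtain ⟨i, hi⟩ := rnd K hK b.re ((Complex.abs_re_le_norm b).trans h)
  obtain ⟨j, hj⟩ := rnd K hK b.im ((Complex.abs_im_le_norm b).trans h)
  refine ⟨i, j, ?_⟩
  have e : b - rco i j = ((b.re - (((i : ℕ) : ℝ) / K - 1) : ℝ) : ℂ) +
      ((b.im - (((j : ℕ) : ℝ) / K - 1) : ℝ) : ℂ) * Complex.I := by
    conv_lhs => rw [← Complex.re_add_im b]
    unfold rco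
    push_cast
    ring
  rw [e]
  refine (norm_add_le _ _).trans ?_
  rw [norm_mul, Complex.norm_I, mul_one, Complex.norm_real, Complex.norm_real,
    Real.norm_eq_abs, Real.norm_eq_abs]
  have : (2 : ℝ) / K = 1 / K + 1 / K := by ring
  rw [this]
  exact add_le_add hi hj

/-- the rounding changes the model by at most `1 / 20` -/
theorem rnd3 (R L : ℕ) (hL : 1 ≤ L) (b : ℕ → ℂ) (β : ℕ → ℝ) (hb : ∀ r, ‖b r‖ ≤ 1) :
    ∃ z : Fin R → Fin (2 * (100 * (R + 1)) + 1) × Fin (2 * (100 * (R + 1)) + 1) ×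
      Fin (1000 * (R + 1) * L), ∀ t < L,
      ‖(∑ r ∈ range R, b r * ee (β r * (t : ℕ))) - mdl z t‖ ≤ 1 / 20 := by
  have hK : 1 ≤ 100 * (R + 1) := by omega
  have hH : 1 ≤ 1000 * (R + 1) * L := Nat.mul_pos (by omega) hL
  choose i j hij using fun r : Fin R => rnd1 (100 * (R + 1)) hK (b r) (hb r)
  choose z hz using fun r : Fin R => rnd2 (1000 * (R + 1) * L) hH (β r)
  refine ⟨fun r => (i r, j r, z r), fun t ht => ?_⟩
  unfold mdl
  rw [Finset.sum_range (fun r => b r * ee (β r * (t : ℕ))), ← Finset.sum_sub_distrib]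
  refine (norm_sum_le _ _).trans ?_
  have hR : (0 : ℝ) < (R : ℝ) + 1 := by positivity
  have hL' : (0 : ℝ) < L := by exact_mod_cast hL
  have key : ∀ r : Fin R, ‖b r * ee (β r * (t : ℕ)) - rco (i r) (j r) *
      ee ((((z r) : ℕ) : ℝ) / (1000 * (R + 1) * L : ℕ) * t)‖ ≤ 1 / 20 / (R + 1) := by
    intro r
    have e : b r * ee (β r * (t : ℕ)) - rco (i r) (j r) *
        ee ((((z r) : ℕ) : ℝ) / (1000 * (R + 1) * L : ℕ) * t) =
        (b r - rco (i r) (j r)) * ee (((z r : ℕ) : ℝ) / (1000 * (R + 1) * L : ℕ) * t) +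
        b r * (ee (β r * (t : ℕ)) - ee (((z r : ℕ) : ℝ) / (1000 * (R + 1) * L : ℕ) * t)) := by
      ring
    rw [e]
    refine (norm_add_le _ _).trans ?_
    rw [norm_mul, norm_mul, norm_ee, mul_one]
    have h1 := hij r
    have h2 := hz r t
    have h3 : 2 * Real.pi * ((t : ℝ) / (1000 * (R + 1) * L : ℕ)) ≤ 7 / 1000 / (R + 1) := by
      have hpi := Real.pi_lt_d2
      have hpi0 := Real.pi_pos
      have : (t : ℝ) / (1000 * (R + 1) * L : ℕ) ≤ 1 / 1000 / (R + 1) := by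
        push_cast
        rw [div_le_div_iff₀ (by positivity) (by positivity)]
        have : (t : ℝ) ≤ L := by exact_mod_cast ht.le
        nlinarith
      calc 2 * Real.pi * ((t : ℝ) / (1000 * (R + 1) * L : ℕ))
          ≤ 7 * (1 / 1000 / (R + 1)) := by
            apply mul_le_mul _ this (by positivity) (by norm_num)
            linarith
        _ = 7 / 1000 / (R + 1) := by ring
    have h4 : (2 : ℝ) / (100 * (R + 1) : ℕ) = 2 / 100 / (R + 1) := by
      push_cast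
      field_simp
    rw [h4] at h1
    have h5 := mul_le_mul (hb r) (h2.trans h3) (norm_nonneg _) zero_le_one
    rw [one_mul] at h5
    calc _ ≤ 2 / 100 / (R + 1) + 7 / 1000 / ((R : ℝ) + 1) := add_le_add h1 h5
      _ ≤ 1 / 20 / (R + 1) := by
        rw [← add_div]
        gcongr
        norm_num
  refine (Finset.sum_le_sum fun r _ => key r).trans ?_
  rw [Finset.sum_const, Finset.card_univ, Fintype.card_fin, nsmul_eq_mul]
  rw [mul_div_assoc', div_le_iff₀ hR]
  nlinarith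

theorem card_sgm (R K H L : ℕ) :
    (univ.image (sgm (R := R) (K := K) (H := H) L)).card ≤ ((2 * K + 1) ^ 2 * H) ^ R := by
  refine Finset.card_image_le.trans (le_of_eq ?_)
  rw [Finset.card_univ]
  simp only [Fintype.card_pi, Fintype.card_prod, Fintype.card_fin, Finset.prod_const,
    Finset.card_univ]
  congr 1
  ring

theorem pow_aux (A R L : ℕ) (hR : R ≤ A) (hA : 1 ≤ A) (hL : 1 ≤ L) :
    (A * L) ^ R ≤ (A * L) ^ A :=
  Nat.pow_le_pow_right (Nat.mul_pos hA hL) hR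

theorem card_bd (R L : ℕ) (hL : 1 ≤ L) :
    ((univ.image (sgm (R := R) (K := 100 * (R + 1))
      (H := 1000 * (R + 1) * L) L)).card : ℝ) ≤
      (((2 * (100 * (R + 1)) + 1) ^ 2 * (1000 * (R + 1)) * L : ℕ) : ℝ) ^
        ((2 * (100 * (R + 1)) + 1) ^ 2 * (1000 * (R + 1))) := by
  have h1 := card_sgm R (100 * (R + 1)) (1000 * (R + 1) * L) L
  have hA : R + 1 ≤ (2 * (100 * (R + 1)) + 1) ^ 2 * (1000 * (R + 1)) := by
    have h3 : 1 ≤ (2 * (100 * (R + 1)) + 1) ^ 2 := Nat.one_le_pow _ _ (by omega)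
    calc R + 1 ≤ 1 * (1000 * (R + 1)) := by omega
      _ ≤ _ := Nat.mul_le_mul_right _ h3
  replace h1 := h1.trans (le_of_eq (congrArg (fun u => u ^ R) (Nat.mul_assoc
    ((2 * (100 * (R + 1)) + 1) ^ 2) (1000 * (R + 1)) L).symm))
  generalize (2 * (100 * (R + 1)) + 1) ^ 2 * (1000 * (R + 1)) = A at h1 hA ⊢
  rw [← Nat.cast_pow]
  exact Nat.cast_le.2 (h1.trans (pow_aux A R L (by omega) (by omega) hL))

theorem pf_WN1 : T_WN1 := by
  classical
  intro R
  refine ⟨(2 * (100 * (R + 1)) + 1) ^ 2 * (1000 * (R + 1)), ?_, fun L hL => ?_⟩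
  · have h3 : 1 ≤ (2 * (100 * (R + 1)) + 1) ^ 2 := Nat.one_le_pow _ _ (by omega)
    exact Nat.mul_pos h3 (by omega)
  · refine ⟨univ.image (sgm (R := R) (K := 100 * (R + 1)) (H := 1000 * (R + 1) * L) L),
      card_bd R L hL, ?_⟩
    · intro b β hb
      obtain ⟨z, hz⟩ := rnd3 R L hL b β hb
      refine ⟨sgm L z, Finset.mem_image_of_mem _ (mem_univ _), fun v => ?_⟩
      rw [Finset.mul_sum]
      have key : ∀ t ∈ (univ : Finset (Fin L)).filter (fun t => v t ≠ sgm L z t),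
          (1 : ℝ) ≤ 5 / 4 * ‖(sg (v t) : ℂ) - ∑ r ∈ range R, b r * ee (β r * (t : ℕ))‖ ^ 2 := by
        intro t ht
        rw [mem_filter] at ht
        have h1 := hz t t.2
        have h2 : 1 ≤ ‖(sg (v t) : ℂ) - mdl z t‖ := by
          refine le_trans ?_ (Complex.abs_re_le_norm _)
          rw [Complex.sub_re, Complex.ofReal_re]
          have h3 := ht.2
          unfold sgm at h3
          unfold sg
          cases hv : v t
          · rw [hv] at h3
            have h4 : 0 ≤ (mdl z t).re := by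
              by_contra hc
              exact h3 (by simp [hc])
            simp only [Bool.false_eq_true, if_false]
            rw [abs_of_nonpos (by linarith)]
            linarith
          · rw [hv] at h3
            have h4 : (mdl z t).re < 0 := by
              by_contra hc
              push Not at hc
              exact h3 (by simp [hc])
            simp only [if_true]
            rw [abs_of_nonneg (by linarith)]
            linarith
        have h5 : ‖(sg (v t) : ℂ) - mdl z t‖ ≤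
            ‖(sg (v t) : ℂ) - ∑ r ∈ range R, b r * ee (β r * (t : ℕ))‖ + 1 / 20 := by
          calc ‖(sg (v t) : ℂ) - mdl z t‖ =
              ‖((sg (v t) : ℂ) - ∑ r ∈ range R, b r * ee (β r * (t : ℕ))) +
                ((∑ r ∈ range R, b r * ee (β r * (t : ℕ))) - mdl z t)‖ := by
                congr 1
                ring
            _ ≤ _ := (norm_add_le _ _).trans (add_le_add le_rfl h1)
        nlinarith [norm_nonneg ((sg (v t) : ℂ) - ∑ r ∈ range R, b r * ee (β r * (t : ℕ)))]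
      calc (((univ : Finset (Fin L)).filter (fun t => v t ≠ sgm L z t)).card : ℝ)
          = ∑ _t ∈ (univ : Finset (Fin L)).filter (fun t => v t ≠ sgm L z t), (1 : ℝ) := by
            rw [Finset.sum_const, nsmul_eq_mul, mul_one]
        _ ≤ ∑ t ∈ (univ : Finset (Fin L)).filter (fun t => v t ≠ sgm L z t),
            5 / 4 * ‖(sg (v t) : ℂ) - ∑ r ∈ range R, b r * ee (β r * (t : ℕ))‖ ^ 2 :=
            Finset.sum_le_sum key
        _ ≤ _ := Finset.sum_le_sum_of_subset_of_nonneg (Finset.filter_subset _ _)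
            (fun _ _ _ => by positivity)

end Pool.Agent.H4.ES
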